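import Mathlib
import Pool.Agent.H.MP_e65cda_an.B

namespace Pool.Agent.Results.MP_e65cda_an.Good

/-- `p` is good: for every nonnegative coefficient sequence of least period `p`, every positive
solution of the Lyness recursion is bounded. -/
def Good (p : ℕ) : Prop :=
  ∀ α : ℕ → ℝ, (∀ n, 0 ≤ α n) → IsLeast {q : ℕ | 1 ≤ q ∧ ∀ n, α (n + q) = α n} p →
    ∀ x : ℕ → ℝ, 0 < x 0 → 0 < x 1 → (∀ n, x (n + 2) = (α n + x (n + 1)) / x n) →
      BddAbove (Set.range x)

noncomputable def V (a b x y : ℝ) : ℝ :=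
  a * x + b * y + b * (x / y) + a * (y / x) + (b ^ 2 + a) / y + (b + a ^ 2) / x + a * b / (x * y)

lemma V_inv (a b x y : ℝ) (ha : 0 ≤ a) (hb : 0 ≤ b) (hx : 0 < x) (hy : 0 < y) :
    V a b ((a + y) / x) ((b + (a + y) / x) / y) = V a b x y := by
  unfold V
  have h1 : 0 < a + y := by positivity
  have h2 : 0 < b * x + (a + y) := by positivity
  have e : b + (a + y) / x = (b * x + (a + y)) / x := by field_simp
  rw [e]
  field_simp
  ring

lemma V_bd (a b x y : ℝ) (ha : 0 ≤ a) (hb : 0 ≤ b) (hab : a ≠ b) (c : ℝ) :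
    ∃ C, ∀ x y : ℝ, 0 < x → 0 < y → V a b x y = c → x ≤ C ∧ y ≤ C := by
  have key : ∀ d u v : ℝ, 0 < d → 0 < u → 0 < v → d * u ≤ c → d * (v / u) ≤ c →
      u ≤ c / d + (c / d) ^ 2 ∧ v ≤ c / d + (c / d) ^ 2 := by
    intro d u v hd hu hv h1 h2
    have e1 : u ≤ c / d := by rw [le_div_iff₀ hd]; linarith
    have e2 : v / u ≤ c / d := by rw [le_div_iff₀ hd]; linarith
    rw [div_le_iff₀ hu] at e2
    constructor <;> nlinarith
  by_cases h : 0 < a
  · refine ⟨c / a + (c / a) ^ 2, fun x y hx hy hV => key a x y h hx hy ?_ ?_⟩ <;>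
    · rw [← hV]; unfold V
      have : 0 ≤ a * x := by positivity
      have : 0 ≤ b * y := by positivity
      have : 0 ≤ b * (x / y) := by positivity
      have : 0 ≤ a * (y / x) := by positivity
      have : 0 ≤ (b ^ 2 + a) / y := by positivity
      have : 0 ≤ (b + a ^ 2) / x := by positivity
      have : 0 ≤ a * b / (x * y) := by positivity
      linarith
  · have hb' : 0 < b := lt_of_le_of_ne hb fun h' => hab (by linarith)
    refine ⟨c / b + (c / b) ^ 2, fun x y hx hy hV => (key b y x hb' hy hx ?_ ?_).symm⟩ <;>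
    · rw [← hV]; unfold V
      have : 0 ≤ a * x := by positivity
      have : 0 ≤ b * y := by positivity
      have : 0 ≤ b * (x / y) := by positivity
      have : 0 ≤ a * (y / x) := by positivity
      have : 0 ≤ (b ^ 2 + a) / y := by positivity
      have : 0 ≤ (b + a ^ 2) / x := by positivity
      have : 0 ≤ a * b / (x * y) := by positivity
      linarith

theorem result : ∀ p : ℕ, 2 ≤ p → (Good p ↔ p = 2) := by
  intro p hp
  constructor
  · intro h
    by_contra hne
    obtain ⟨α, h0, h1, x, x0, x1, hx, hun⟩ := Pool.Agent.H.MP_e65cda_an.bad p (by omega)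
    exact hun (h α h0 h1 x x0 x1 hx)
  · rintro rfl α h0 hper x x0 x1 hx
    have hα : ∀ k, α (2 * k) = α 0 ∧ α (2 * k + 1) = α 1 := by
      intro k
      induction k with
      | zero => exact ⟨rfl, rfl⟩
      | succ k ih => exact ⟨(hper.1.2 (2 * k)).trans ih.1, (hper.1.2 (2 * k + 1)).trans ih.2⟩
    have hab : α 0 ≠ α 1 := by
      intro h
      have : 2 ≤ 1 := hper.2 ⟨le_rfl, fun n => by
        obtain ⟨k, rfl | rfl⟩ := Nat.even_or_odd' n
        · rw [(hα k).1, (hα k).2, h]
        · rw [(hα k).2, ← h]; exact (hα (k + 1)).1⟩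
      omega
    have key : ∀ k, 0 < x (2 * k) ∧ 0 < x (2 * k + 1) ∧
        V (α 0) (α 1) (x (2 * k)) (x (2 * k + 1)) = V (α 0) (α 1) (x 0) (x 1) := by
      intro k
      induction k with
      | zero => exact ⟨x0, x1, rfl⟩
      | succ k ih =>
        obtain ⟨p1, p2, p3⟩ := ih
        have e1 : x (2 * (k + 1)) = (α 0 + x (2 * k + 1)) / x (2 * k) := by
          rw [← (hα k).1]; exact hx (2 * k)
        have e2 : x (2 * (k + 1) + 1) = (α 1 + x (2 * (k + 1))) / x (2 * k + 1) := by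
          rw [← (hα k).2]; exact hx (2 * k + 1)
        have := h0 0
        have := h0 1
        rw [e2, e1, V_inv _ _ _ _ (h0 0) (h0 1) p1 p2]
        exact ⟨by positivity, by positivity, p3⟩
    obtain ⟨C, hC⟩ := V_bd (α 0) (α 1) 1 1 (h0 0) (h0 1) hab (V (α 0) (α 1) (x 0) (x 1))
    refine ⟨C, ?_⟩
    rintro _ ⟨n, rfl⟩
    obtain ⟨k, rfl | rfl⟩ := Nat.even_or_odd' n
    · exact (hC _ _ (key k).1 (key k).2.1 (key k).2.2).1
    · exact (hC _ _ (key k).1 (key k).2.1 (key k).2.2).2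

end Pool.Agent.Results.MP_e65cda_an.Good
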